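import Pool.Agent.H34.TAM.Stmts2

/-!
# Row CHN of the board aut: chain rule for the free difference quotients
-/

set_option autoImplicit false

namespace Pool.AUT

open Pool.CGR Pool.CGS Pool.TAM MulOpposite

open scoped TensorProduct

namespace CHNx

lemma D_one {m : ℕ} {D : Fin m → (Fr m →ₗ[ℂ] Te m)} (hD : IsPd D) (k : Fin m) : D k 1 = 0 := by
  have h := hD.mul k 1 1
  rw [one_mul, op_one, ← Algebra.TensorProduct.one_def, one_mul] at h
  exact left_eq_add.1 h

lemma ph_left {m : ℕ} (φ : Fr m →ₐ[ℂ] Fr m) (a : Fr m) :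
    ph φ (a ⊗ₜ[ℂ] (1 : (Fr m)ᵐᵒᵖ)) = φ a ⊗ₜ[ℂ] (1 : (Fr m)ᵐᵒᵖ) := by
  simp [ph]

lemma ph_right {m : ℕ} (φ : Fr m →ₐ[ℂ] Fr m) (b : Fr m) :
    ph φ ((1 : Fr m) ⊗ₜ[ℂ] op b) = (1 : Fr m) ⊗ₜ[ℂ] op (φ b) := by
  simp [ph]

end CHNx

open CHNx in
theorem chn_thm : CHNStmt := by
  intro m D hD φ P k
  induction P using FreeAlgebra.induction with
  | grade0 r =>
    have h1 : ∀ i, D i (algebraMap ℂ (Fr m) r) = 0 := by
      intro i
      rw [Algebra.algebraMap_eq_smul_one, map_smul, D_one hD, smul_zero]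
    rw [AlgHom.commutes, h1]
    symm
    refine Finset.sum_eq_zero fun j _ => ?_
    rw [h1, map_zero, zero_mul]
  | grade1 j =>
    rw [Finset.sum_eq_single j]
    · rw [hD.gen, if_pos rfl, map_one, one_mul]
    · intro i _ hi
      rw [hD.gen, if_neg (Ne.symm hi), map_zero, zero_mul]
    · intro h
      exact (h (Finset.mem_univ j)).elim
  | mul a b ha hb =>
    rw [map_mul, hD.mul, ha, hb, Finset.mul_sum, Finset.mul_sum, ← Finset.sum_add_distrib]
    refine Finset.sum_congr rfl fun j _ => ?_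
    rw [hD.mul, map_add, map_mul, map_mul, ph_left, ph_right, add_mul, mul_assoc, mul_assoc]
  | add a b ha hb =>
    rw [map_add, map_add, ha, hb, ← Finset.sum_add_distrib]
    refine Finset.sum_congr rfl fun j _ => ?_
    rw [map_add, map_add, add_mul]

end Pool.AUT
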